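import Mathlib

set_option autoImplicit false

/-!
# MP_e59eee_co: an algebraic poset that is not weakly atomic

The poset of ideals of the poset `Q` with elements `a n`, `c`, `d n q` (`n` a natural number, `q` a
rational number) and the relations `a m ≤ a n` and `a m ≤ d n q` for `m ≤ n`, `c ≤ d n q`, and
`d m p < d n q` for `m < n` and `p < q`. The interval between the ideal of all `a n` and the ideal
`V 0` of all `a n`, `c` and `d n q`, `q < 0`, contains no covering pair.
-/

namespace Pool.Agent.Results.MP_e59eee_co.NotWeaklyAtomic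

/-- Every directed set has a least upper bound. -/
def IsUpComplete (P : Type) [PartialOrder P] : Prop :=
  ∀ D : Set P, D.Nonempty → DirectedOn (· ≤ ·) D → ∃ s, IsLUB D s

/-- `c` is compact: if `c` is below the join `s` of a directed set `D`, then it is below an element
of `D`. -/
def IsCompactElt {P : Type} [PartialOrder P] (c : P) : Prop :=
  ∀ D : Set P, D.Nonempty → DirectedOn (· ≤ ·) D → ∀ s, IsLUB D s → c ≤ s → ∃ d ∈ D, c ≤ d

/-- `P` is algebraic: it is up-complete and every element is the join of a directed set of compact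
elements. -/
def IsAlgebraic (P : Type) [PartialOrder P] : Prop :=
  IsUpComplete P ∧ ∀ x : P, ∃ D : Set P, D.Nonempty ∧ DirectedOn (· ≤ ·) D ∧
    (∀ c ∈ D, IsCompactElt c) ∧ IsLUB D x

/-- `P` is weakly atomic: for all `x < y` there are `x ≤ u < v ≤ y` with `v` covering `u`. -/
def IsWeaklyAtomic (P : Type) [PartialOrder P] : Prop :=
  ∀ x y : P, x < y → ∃ u v : P, x ≤ u ∧ v ≤ y ∧ u < v ∧ ¬ ∃ w, u < w ∧ w < v

/-! ### The poset of ideals of a poset is algebraic -/

section ideals

variable {Q : Type} [PartialOrder Q]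

/-- The union of a directed set of ideals. -/
def union (D : Set (Order.Ideal Q)) (hne : D.Nonempty) (hD : DirectedOn (· ≤ ·) D) :
    Order.Ideal Q where
  carrier := {x | ∃ I ∈ D, x ∈ I}
  lower' := by
    rintro x y hyx ⟨I, hI, hx⟩
    exact ⟨I, hI, I.lower hyx hx⟩
  nonempty' := by
    obtain ⟨I, hI⟩ := hne
    obtain ⟨x, hx⟩ := I.nonempty
    exact ⟨x, I, hI, hx⟩
  directed' := by
    rintro x ⟨I, hI, hx⟩ y ⟨J, hJ, hy⟩
    obtain ⟨K, hK, hIK, hJK⟩ := hD I hI J hJ
    obtain ⟨z, hz, hxz, hyz⟩ := K.directed x (hIK hx) y (hJK hy)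
    exact ⟨z, ⟨K, hK, hz⟩, hxz, hyz⟩

theorem mem_union {D : Set (Order.Ideal Q)} {hne : D.Nonempty} {hD : DirectedOn (· ≤ ·) D}
    {x : Q} : x ∈ union D hne hD ↔ ∃ I ∈ D, x ∈ I := Iff.rfl

theorem isLUB_union (D : Set (Order.Ideal Q)) (hne : D.Nonempty)
    (hD : DirectedOn (· ≤ ·) D) : IsLUB D (union D hne hD) := by
  constructor
  · intro I hI x hx
    exact ⟨I, hI, hx⟩
  · rintro J hJ x ⟨I, hI, hx⟩
    exact hJ hI hx

theorem isCompactElt_principal (p : Q) : IsCompactElt (Order.Ideal.principal p) := by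
  intro D hne hD s hs hps
  have h1 : s = union D hne hD := hs.unique (isLUB_union D hne hD)
  have h2 : p ∈ union D hne hD := h1 ▸ Order.Ideal.principal_le_iff.1 hps
  obtain ⟨I, hI, hp⟩ := h2
  exact ⟨I, hI, Order.Ideal.principal_le_iff.2 hp⟩

theorem isAlgebraic_ideal : IsAlgebraic (Order.Ideal Q) := by
  refine ⟨fun D hne hD => ⟨_, isLUB_union D hne hD⟩, fun I => ?_⟩
  refine ⟨Order.Ideal.principal '' (I : Set Q), I.nonempty.image _, ?_, ?_, ?_, ?_⟩
  · rintro _ ⟨x, hx, rfl⟩ _ ⟨y, hy, rfl⟩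
    obtain ⟨z, hz, hxz, hyz⟩ := I.directed x hx y hy
    exact ⟨_, ⟨z, hz, rfl⟩, Order.Ideal.principal_le_iff.2 hxz,
      Order.Ideal.principal_le_iff.2 hyz⟩
  · rintro _ ⟨x, -, rfl⟩
    exact isCompactElt_principal x
  · rintro _ ⟨x, hx, rfl⟩
    exact Order.Ideal.principal_le_iff.2 hx
  · intro J hJ x hx
    exact Order.Ideal.principal_le_iff.1 (hJ ⟨x, hx, rfl⟩)

end ideals

/-! ### The example -/

/-- The elements `a n`, `c`, `d n q`. -/
inductive Q : Type
  | a (n : ℕ)
  | c
  | d (n : ℕ) (q : ℚ)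

namespace Q

/-- The order of `Q`. -/
def le : Q → Q → Prop
  | a m, a n => m ≤ n
  | a m, d n _ => m ≤ n
  | a _, c => False
  | c, c => True
  | c, d _ _ => True
  | c, a _ => False
  | d m p, d n q => (m = n ∧ p = q) ∨ (m < n ∧ p < q)
  | d _ _, a _ => False
  | d _ _, c => False

instance : PartialOrder Q where
  le := le
  le_refl x := by cases x <;> simp [le]
  le_trans x y z hxy hyz := by
    cases x <;> cases y <;> cases z <;> simp only [le] at hxy hyz ⊢
    · omega
    · omega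
    · rcases hyz with h | h <;> omega
    · rcases hxy with ⟨rfl, rfl⟩ | ⟨h1, h2⟩
      · exact hyz
      · rcases hyz with ⟨rfl, rfl⟩ | ⟨h3, h4⟩
        · exact Or.inr ⟨h1, h2⟩
        · exact Or.inr ⟨h1.trans h3, h2.trans h4⟩
  le_antisymm x y hxy hyx := by
    cases x <;> cases y <;> simp only [le] at hxy hyx
    · rw [le_antisymm hxy hyx]
    · rfl
    · rcases hxy with ⟨rfl, rfl⟩ | ⟨h1, h2⟩
      · rfl
      · rcases hyx with ⟨rfl, rfl⟩ | ⟨h3, h4⟩
        · rfl
        · exact absurd (h1.trans h3) (lt_irrefl _)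

theorem a_le_a {m n : ℕ} : a m ≤ a n ↔ m ≤ n := Iff.rfl
theorem a_le_d {m n : ℕ} {q : ℚ} : a m ≤ d n q ↔ m ≤ n := Iff.rfl
theorem c_le_d {n : ℕ} {q : ℚ} : c ≤ d n q := trivial
theorem d_le_d {m n : ℕ} {p q : ℚ} : d m p ≤ d n q ↔ (m = n ∧ p = q) ∨ (m < n ∧ p < q) := Iff.rfl
theorem not_c_le_a {n : ℕ} : ¬ c ≤ a n := fun h => h
theorem not_d_le_a {m n : ℕ} {p : ℚ} : ¬ d m p ≤ a n := fun h => h
theorem not_d_le_c {m : ℕ} {p : ℚ} : ¬ d m p ≤ c := fun h => h
theorem not_a_le_c {m : ℕ} : ¬ a m ≤ c := fun h => h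

/-- The ideal of all `a n`. -/
def X : Order.Ideal Q where
  carrier := Set.range a
  lower' := by
    rintro _ y hy ⟨n, rfl⟩
    cases y with
    | a m => exact ⟨m, rfl⟩
    | c => exact absurd hy not_c_le_a
    | d m p => exact absurd hy not_d_le_a
  nonempty' := ⟨a 0, 0, rfl⟩
  directed' := by
    rintro _ ⟨m, rfl⟩ _ ⟨n, rfl⟩
    exact ⟨a (max m n), ⟨_, rfl⟩, a_le_a.2 (le_max_left _ _), a_le_a.2 (le_max_right _ _)⟩

theorem mem_X {x : Q} : x ∈ X ↔ ∃ n, a n = x := Iff.rfl

/-- The elements `a n`, `c` and `d n p`, `p < r`. -/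
def small (r : ℚ) : Q → Prop
  | a _ => True
  | c => True
  | d _ p => p < r

/-- For an element of `V r` there is an upper bound `d n p` with `p < r`; all `d m q` with `n ≤ m`
and `p ≤ q` sufficiently large are upper bounds as well. -/
theorem exists_bound {r : ℚ} (x : Q) (hx : small r x) :
    ∃ (n : ℕ) (p : ℚ), p < r ∧ ∀ m q, n < m → p < q → x ≤ d m q := by
  cases x with
  | a k => exact ⟨k, r - 1, by linarith, fun m q hm _ => a_le_d.2 hm.le⟩
  | c => exact ⟨0, r - 1, by linarith, fun m q _ _ => c_le_d⟩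
  | d k p => exact ⟨k, p, hx, fun m q hm hq => d_le_d.2 (Or.inr ⟨hm, hq⟩)⟩

/-- The ideal of all `a n`, `c` and `d n p`, `p < r`. -/
def V (r : ℚ) : Order.Ideal Q where
  carrier := {x | small r x}
  lower' := by
    intro x y hy hx
    cases y with
    | a m => exact trivial
    | c => exact trivial
    | d m p =>
      cases x with
      | a n => exact absurd hy not_d_le_a
      | c => exact absurd hy not_d_le_c
      | d n q =>
        rcases d_le_d.1 hy with ⟨rfl, rfl⟩ | ⟨-, h⟩
        · exact hx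
        · exact h.trans hx
  nonempty' := ⟨c, trivial⟩
  directed' := by
    intro x hx y hy
    obtain ⟨n, p, hp, h1⟩ := exists_bound x hx
    obtain ⟨m, q, hq, h2⟩ := exists_bound y hy
    obtain ⟨s, hs1, hs2⟩ := exists_between (max_lt hp hq)
    have hp' : p < s := lt_of_le_of_lt (le_max_left _ _) hs1
    have hq' : q < s := lt_of_le_of_lt (le_max_right _ _) hs1
    exact ⟨d (max n m + 1) s, hs2,
      h1 _ _ (Nat.lt_succ_of_le (le_max_left _ _)) hp',
      h2 _ _ (Nat.lt_succ_of_le (le_max_right _ _)) hq'⟩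

theorem mem_V {r : ℚ} {x : Q} : x ∈ V r ↔ small r x := Iff.rfl
theorem d_mem_V {r : ℚ} {n : ℕ} {p : ℚ} : d n p ∈ V r ↔ p < r := Iff.rfl

section above

variable {I : Order.Ideal Q} (hI : X ≤ I)

include hI

theorem a_mem (n : ℕ) : a n ∈ I := hI ⟨n, rfl⟩

/-- If `d n q` is in `I`, then so is some `d m r` with `m` as large as wanted and `q < r`. -/
theorem exists_gt {n : ℕ} {q : ℚ} (h : d n q ∈ I) (k : ℕ) :
    ∃ m r, k < m ∧ q < r ∧ d m r ∈ I := by
  obtain ⟨z, hz, h1, h2⟩ := I.directed _ h _ (a_mem hI (max n k + 1))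
  cases z with
  | a m => exact absurd h1 not_d_le_a
  | c => exact absurd h1 not_d_le_c
  | d m r =>
    have h3 := a_le_d.1 h2
    have h4 := le_max_left n k
    have h5 := le_max_right n k
    rcases d_le_d.1 h1 with ⟨rfl, rfl⟩ | ⟨-, h6⟩
    · omega
    · exact ⟨m, r, by omega, h6, hz⟩

/-- If `d n q` is in `I`, then so is every `d k p` with `p ≤ q`. -/
theorem d_mem_of_le {n : ℕ} {q : ℚ} (h : d n q ∈ I) (k : ℕ) {p : ℚ} (hp : p ≤ q) :
    d k p ∈ I := by
  obtain ⟨m, r, hm, hr, hmem⟩ := exists_gt hI h k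
  exact I.lower (d_le_d.2 (Or.inr ⟨hm, lt_of_le_of_lt hp hr⟩)) hmem

/-- An ideal that contains `X` and an element outside `X` contains some `d n q`. -/
theorem exists_d_mem {x : Q} (hx : x ∈ I) (hxX : x ∉ X) : ∃ n q, d n q ∈ I := by
  cases x with
  | a n => exact absurd ⟨n, rfl⟩ hxX
  | d n q => exact ⟨n, q, hx⟩
  | c =>
    obtain ⟨z, hz, h1, h2⟩ := I.directed _ hx _ (a_mem hI 0)
    cases z with
    | a m => exact absurd h1 not_c_le_a
    | c => exact absurd h2 not_a_le_c
    | d m r => exact ⟨m, r, hz⟩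

theorem V_lt {n : ℕ} {q : ℚ} (h : d n q ∈ I) : V q < I := by
  refine lt_of_le_of_ne ?_ ?_
  · intro x hx
    cases x with
    | a n => exact a_mem hI n
    | c => exact I.lower c_le_d h
    | d k p => exact d_mem_of_le hI h k (le_of_lt (d_mem_V.1 hx))
  · rintro rfl
    exact lt_irrefl _ (d_mem_V.1 h)

end above

theorem X_lt_V (r : ℚ) : X < V r := by
  refine lt_of_le_of_ne ?_ ?_
  · rintro _ ⟨n, rfl⟩
    exact trivial
  · intro h
    have h1 : c ∈ X := by rw [h]; exact trivial
    obtain ⟨n, hn⟩ := h1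
    exact absurd hn (by simp)

/-- Above `X` the ideals are densely ordered. -/
theorem exists_between_ideals {u v : Order.Ideal Q} (hu : X ≤ u) (huv : u < v) :
    ∃ w, u < w ∧ w < v := by
  have hv : X ≤ v := hu.trans huv.le
  obtain ⟨e, hev, heu⟩ := Set.exists_of_ssubset (show (u : Set Q) ⊂ v from huv)
  by_cases hux : ∃ n q, d n q ∈ u
  · obtain ⟨n₀, q₀, h0⟩ := hux
    -- the element `e` is some `d n q`
    cases e with
    | a n => exact absurd (a_mem hu n) heu
    | c => exact absurd (u.lower c_le_d h0) heu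
    | d n q =>
      obtain ⟨m, r, -, hqr, hmem⟩ := exists_gt hv hev 0
      refine ⟨V r, lt_of_le_of_ne ?_ ?_, V_lt hv hmem⟩
      · intro x hx
        cases x with
        | a n => exact trivial
        | c => exact trivial
        | d k p =>
          apply d_mem_V.2
          by_contra hp
          push Not at hp
          exact heu (d_mem_of_le hu hx n (hqr.le.trans hp))
      · rintro rfl
        exact heu (d_mem_V.2 hqr)
  · -- then `u = X`
    have hueq : u = X := by
      apply le_antisymm _ hu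
      intro x hx
      by_contra hxX
      exact hux (exists_d_mem hu hx hxX)
    subst hueq
    obtain ⟨n, q, h⟩ := exists_d_mem hv hev heu
    exact ⟨V q, X_lt_V q, V_lt hv h⟩

end Q

/-- There is an algebraic poset that is not weakly atomic. -/
theorem result : ∃ (P : Type) (_ : PartialOrder P), IsAlgebraic P ∧ ¬ IsWeaklyAtomic P := by
  refine ⟨Order.Ideal Q, inferInstance, isAlgebraic_ideal, fun h => ?_⟩
  obtain ⟨u, v, hu, -, huv, hno⟩ := h Q.X (Q.V 0) (Q.X_lt_V 0)
  exact hno (Q.exists_between_ideals hu huv)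

end Pool.Agent.Results.MP_e59eee_co.NotWeaklyAtomic
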